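import Pool.Agent.Helper97.PD.Defs

/-!
# Project PD, block P9: the arithmetic half (statements)
-/

set_option autoImplicit false

namespace Pool.Agent.PD

open VC Filter Topology NumberField IsDedekindDomain IntermediateField Pool.Agent.SC
open Pool.Agent.L (Inert OverV)
open Pool.Agent.LN (IsRam DecPt)
open Pool.Agent.HG (Pr nm)
open Pool.Agent.ML (HasMu)

/-- The action of the absolute Galois group on a finite set `P` (the places of a level above `b₀`) for a twist by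
`c`: on an open subgroup it is given by elements of the abelian group `A` of exponent `ℓ`, it is unramified outside
`Bad`, and a Frobenius element at `v ∉ Bad` which is ramified in `c` has a fixed point. -/
structure Rep {k E : Type} [Field k] [NumberField k] [Field E] [Algebra k E] {P : Type} (ℓ : ℕ)
    (A : Subgroup (Equiv.Perm P)) (L : IntermediateField k E) (Bad : Set (Pr k)) (c : k)
    (ρ : (E ≃ₐ[k] E) →* Equiv.Perm P) : Prop where
  cont : ∃ L' : IntermediateField k E, FiniteDimensional k L' ∧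
    ∀ g : E ≃ₐ[k] E, (∀ x ∈ L', g x = x) → ρ g = 1
  mem : ∀ g : E ≃ₐ[k] E, (∀ x ∈ L, g x = x) → ρ g ∈ A
  unr : ∀ v ∉ Bad, ∀ O : ValuationSubring E, OverV v O → ∀ τ : E ≃ₐ[k] E,
    Inert O τ.toRingEquiv → ρ τ = 1
  odd : ∀ v ∉ Bad, IsRam ℓ v c → ∃ (O : ValuationSubring E) (F : E ≃ₐ[k] E) (p f : ℕ),
    DecPt v O F p f ∧ ∃ x : P, ρ F x = x

/-- BLOCK LVF (from `ML.StmtHF`): there are finitely many such actions. -/
def StmtLVF : Prop :=
  ∀ (k E : Type) [Field k] [NumberField k] [Field E] [IsAlgClosed E] [Algebra k E]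
    [Algebra.IsAlgebraic k E] (ℓ : ℕ), ℓ.Prime → HasMu k ℓ → ∀ (P : Type) [Finite P]
    (A : Subgroup (Equiv.Perm P)), (∀ a ∈ A, ∀ b ∈ A, a * b = b * a) → (∀ a ∈ A, a ^ ℓ = 1) →
    ∀ L : IntermediateField k E, FiniteDimensional k L → ∀ Bad : Set (Pr k), Bad.Finite →
    {ρ : (E ≃ₐ[k] E) →* Equiv.Perm P | ∃ c : k, Rep ℓ A L Bad c ρ}.Finite

/-- BLOCK LVA (from `StmtLVF`, `M.StmtW3`, `StmtCT`): for almost no `c` there is such an action with an element
without fixed point. -/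
def StmtLVA : Prop :=
  ∀ (k E : Type) [Field k] [NumberField k] [Field E] [IsAlgClosed E] [Algebra k E]
    [Algebra.IsAlgebraic k E] (ℓ : ℕ), ℓ.Prime → HasMu k ℓ → ∀ (P : Type) [Finite P]
    (A : Subgroup (Equiv.Perm P)), (∀ a ∈ A, ∀ b ∈ A, a * b = b * a) → (∀ a ∈ A, a ^ ℓ = 1) →
    ∀ L : IntermediateField k E, FiniteDimensional k L → ∀ Bad : Set (Pr k), Bad.Finite →
    Rare ℓ fun c : k => ∃ ρ : (E ≃ₐ[k] E) →* Equiv.Perm P, Rep ℓ A L Bad c ρ ∧
      ∃ σ : E ≃ₐ[k] E, ∀ x : P, ρ σ x ≠ x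

end Pool.Agent.PD
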