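import Pool.Agent.Helper29.TW.Geo3
import Pool.Agent.Helper29.PD.LDefs

/-!
# Project PD, block P9: the group of a level, abelian of exponent `ℓ`
-/

set_option autoImplicit false
set_option linter.unusedSectionVars false

namespace Pool.Agent.PD

open VC Filter Topology NumberField IsDedekindDomain IntermediateField Pool.Agent.SC
open Pool.Agent.L (Inert L0 MM SamePlace OverV)
open Pool.Agent.LN (Geo Act IsRam DecPt)
open Pool.Agent.M (OverPl Moves)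
open Pool.Agent.HG (Pr nm)
open Pool.Agent.TW

noncomputable section

section perm

variable {E K0 U : Type} [Field E] [Field K0] [Field U] [Algebra E U] [Algebra K0 U]
  {b₀ : Place E (L0 E K0 (U := U))} {N : IntermediateField E U}

/-- the permutation depends only on the action on `N` -/
theorem pi_congr29 (hN : Lvl E K0 N) {S T : Gb29 b₀}
    (h : ∀ x ∈ N, (S : U ≃+* U) x = (T : U ≃+* U) x) : pi29 hN S = pi29 hN T := by
  ext1 Q
  refine (moves_pi29 hN S Q _).1 fun x hx hx' => ?_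
  have h1 := (moves_pi29 hN T Q (pi29 hN T Q)).2 rfl
  have hT : (T : U ≃+* U) x ∈ N := by rw [← h x hx]; exact hx'
  have h2 := h1 x hx hT
  have h3 : (⟨(T : U ≃+* U) x, hT⟩ : N) = ⟨(S : U ≃+* U) x, hx'⟩ := Subtype.ext (h x hx).symm
  rw [h3] at h2
  exact h2

theorem A29_comm (hN : Lvl E K0 N)
    (hcomm : ∀ a b : U ≃ₐ[E] U, (∀ x ∈ L0 E K0 (U := U), a x = x) →
      (∀ x ∈ L0 E K0 (U := U), b x = x) → ∀ x ∈ N, a (b x) = b (a x))
    {s t : Equiv.Perm (PP29 b₀ N)} (hs : s ∈ A29 (b₀ := b₀) hN) (ht : t ∈ A29 (b₀ := b₀) hN) :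
    s * t = t * s := by
  obtain ⟨S, hS, rfl⟩ := hs
  obtain ⟨T, hT, rfl⟩ := ht
  obtain ⟨a, ha, haS⟩ := exists_alg29 hS
  obtain ⟨b, hb, hbT⟩ := exists_alg29 hT
  rw [← map_mul, ← map_mul]
  refine pi_congr29 hN fun x hx => ?_
  change (S : U ≃+* U) ((T : U ≃+* U) x) = (T : U ≃+* U) ((S : U ≃+* U) x)
  rw [← haS, ← haS, ← hbT, ← hbT]
  exact hcomm a b ha hb x hx

theorem A29_pow (hN : Lvl E K0 N) {ℓ : ℕ}
    (hex : ∀ a : U ≃ₐ[E] U, (∀ x ∈ L0 E K0 (U := U), a x = x) → ∀ x ∈ N, (a ^ ℓ) x = x)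
    {s : Equiv.Perm (PP29 b₀ N)} (hs : s ∈ A29 (b₀ := b₀) hN) : s ^ ℓ = 1 := by
  obtain ⟨S, hS, rfl⟩ := hs
  obtain ⟨a, ha, haS⟩ := exists_alg29 hS
  rw [← map_pow, ← map_one (pi29 (b₀ := b₀) hN)]
  refine pi_congr29 hN fun x hx => ?_
  have h1 : ∀ (n : ℕ) (y : U), ((S ^ n : Gb29 b₀) : U ≃+* U) y = (a ^ n) y := by
    intro n
    induction n with
    | zero => intro y; rfl
    | succ n ih =>
      intro y
      rw [pow_succ, pow_succ, AlgEquiv.mul_apply, haS, ← ih]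
      rfl
  rw [h1, hex a ha x hx]
  rfl

/-- an element of the group with a fixed point is trivial -/
theorem A29_fixc [IsAlgClosed E] [CharZero E] [IsGalois (L0 E K0 (U := U)) U] (hN : Lvl E K0 N)
    (hcomm : ∀ a b : U ≃ₐ[E] U, (∀ x ∈ L0 E K0 (U := U), a x = x) →
      (∀ x ∈ L0 E K0 (U := U), b x = x) → ∀ x ∈ N, a (b x) = b (a x))
    {s : Equiv.Perm (PP29 b₀ N)} (hs : s ∈ A29 (b₀ := b₀) hN) {Q : PP29 b₀ N} (hQ : s Q = Q) :
    s = 1 := by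
  ext1 R
  obtain ⟨a, ha, hm⟩ := trans29 hN Q R
  set t := pi29 hN ⟨a.toRingEquiv, mem_Gb29 ha⟩ with ht
  have ha' : (⟨a.toRingEquiv, mem_Gb29 ha⟩ : Gb29 b₀) ∈ H29 b₀ := fun x hx => ha x hx
  have htA : t ∈ A29 (b₀ := b₀) hN := ⟨_, ha', rfl⟩
  have htQ : t Q = R := (moves_pi29 hN _ Q R).1 hm
  calc s R = (s * t) Q := by rw [Equiv.Perm.mul_apply, htQ]
    _ = (t * s) Q := by rw [A29_comm hN hcomm hs htA]
    _ = R := by rw [Equiv.Perm.mul_apply, hQ, htQ]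

end perm

section geo

variable {k K0 E U : Type} [Field k] [NumberField k] [Field K0] [Field E] [Field U] [Algebra k K0]
  [Algebra k E] [Algebra E U] [Algebra K0 U] [Algebra k U] [IsScalarTower k E U]
  [IsScalarTower k K0 U] {ℓ : ℕ} {h : K0} {r : U}

theorem galP29 (G : Geo k K0 E U ℓ h r) : IsGalois (L0 E K0 (U := U)) U := by
  have hcE : CharZero E := charZero_of_injective_algebraMap (algebraMap k E).injective
  have hn : Normal K0 U := G.normal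
  have hKL : ∀ x : K0, algebraMap K0 U x ∈ L0 E K0 (U := U) :=
    fun x => IntermediateField.subset_adjoin _ _ ⟨x, rfl⟩
  have hcL : CharZero (L0 E K0 (U := U)) :=
    charZero_of_injective_algebraMap (algebraMap E (L0 E K0 (U := U))).injective
  let aKL : Algebra K0 (L0 E K0 (U := U)) :=
    (RingHom.codRestrict (algebraMap K0 U) (L0 E K0 (U := U)) hKL).toAlgebra
  have sKL : IsScalarTower K0 (L0 E K0 (U := U)) U := IsScalarTower.of_algebraMap_eq fun x => rfl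
  have hnL : Normal (L0 E K0 (U := U)) U := Normal.tower_top_of_normal K0 (L0 E K0 (U := U)) U
  exact ⟨⟩

/-- an automorphism which fixes finitely many constants acts like one over `L0` -/
theorem k3P29 (hK3 : Pool.Agent.LN.StmtK3) (hℓ : 2 ≤ ℓ) (G : Geo k K0 E U ℓ h r)
    {b₀ : Place E (L0 E K0 (U := U))}
    {N : IntermediateField E U} (hN : Lvl E K0 N) {Z : Finset U}
    (hZ : ∀ S T : Gb29 b₀, (∀ z ∈ Z, (S : U ≃+* U) z = (T : U ≃+* U) z) →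
      pi29 hN S = pi29 hN T) :
    ∃ C : Finset E, ∀ T : Gb29 b₀, (∀ e ∈ C, (T : U ≃+* U) (algebraMap E U e) = algebraMap E U e) →
      pi29 hN T ∈ A29 (b₀ := b₀) hN := by
  have hgal := galP29 G
  obtain ⟨Z', C, N3, hZZ, -, hN3, -, -, -, hex⟩ := hK3 k K0 E U ℓ h r hℓ G Z
  refine ⟨C, fun T hT => ?_⟩
  obtain ⟨b, hb, hbT⟩ := hex T T.2.1 T.2.2.1 hT
  have hLN : L0 E K0 (U := U) ≤ N3 := by
    rw [hN3]
    exact adjoin.mono _ _ _ Set.subset_union_left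
  have hZN : ∀ z ∈ Z', z ∈ N3 := by
    intro z hz
    rw [hN3]
    exact subset_adjoin _ _ (Or.inr hz)
  obtain ⟨a, ha, hab⟩ := exists_ext29 hLN b hb
  have ha' : (⟨a.toRingEquiv, mem_Gb29 ha⟩ : Gb29 b₀) ∈ H29 b₀ := fun x hx => ha x hx
  refine ⟨_, ha', hZ _ _ fun z hz => ?_⟩
  have h1 := hbT ⟨z, hZN z (hZZ hz)⟩ (hZZ hz)
  have h2 := hab ⟨z, hZN z (hZZ hz)⟩
  exact h2.trans h1.symm

/-- the action in the group `Gb29` -/
def phiP29 {b₀ : Place E (L0 E K0 (U := U))} {c : k} {Φ : (E ≃ₐ[k] E) →* (U ≃+* U)}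
    (hΦ : Act (K0 := K0) ℓ r c Φ) (hfix : ∀ σ, Moves (Φ σ) _ b₀ b₀) : (E ≃ₐ[k] E) →* Gb29 b₀ :=
  Φ.codRestrict (Gb29 b₀) fun σ => ⟨hΦ.fixK σ, fun e => ⟨σ e, hΦ.const σ e⟩, fun e => ⟨σ.symm e, by
    rw [RingEquiv.symm_apply_eq, hΦ.const, AlgEquiv.apply_symm_apply]⟩, hfix σ⟩

theorem phiP29_apply {b₀ : Place E (L0 E K0 (U := U))} {c : k} {Φ : (E ≃ₐ[k] E) →* (U ≃+* U)}
    (hΦ : Act (K0 := K0) ℓ r c Φ) (hfix : ∀ σ, Moves (Φ σ) _ b₀ b₀) (σ : E ≃ₐ[k] E) :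
    (phiP29 hΦ hfix σ : U ≃+* U) = Φ σ := rfl

end geo

end

end Pool.Agent.PD
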