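import Pool.Agent.Helper29.PD.LDefs
import Pool.Agent.Helper13.M.Fin3
import Pool.Agent.Helper99.ML.LFT

/-!
# Project PD, block LVA: almost no `c` has an action with an element without fixed point
(after `Pool.Agent.TW.lva`)
-/

set_option autoImplicit false
set_option linter.unusedSectionVars false

namespace Pool.Agent.PD

open VC Filter Topology NumberField IsDedekindDomain IntermediateField Pool.Agent.SC
open Pool.Agent.L (Inert OverV)
open Pool.Agent.LN (IsRam DecPt)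
open Pool.Agent.M (StmtW3 exists_lift13 exists_res13)
open Pool.Agent.ML (HasMu exists_below99 frob_below99)
open Pool.Agent.HG (Pr nm)

section rare

variable {k : Type} [Field k] [NumberField k] {ℓ : ℕ}

theorem rare_mono29 {P Q : k → Prop} (h : ∀ c, P c → Q c) (hQ : Rare ℓ Q) : Rare ℓ P := by
  intro ε hε
  filter_upwards [hQ ε hε] with X hX
  exact fun T hT hP => hX T hT fun c hc => ⟨(hP c hc).1, (hP c hc).2.1, h c (hP c hc).2.2⟩

/-- a finite union of rare properties -/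
theorem rare_union29 {ι : Type} (R : Finset ι) (P : ι → k → Prop)
    (hP : ∀ i ∈ R, Rare ℓ (P i)) : Rare ℓ (fun c => ∃ i ∈ R, P i c) := by
  classical
  induction R using Finset.induction_on with
  | empty =>
    intro ε hε
    refine Filter.Eventually.of_forall fun X T _ hP => ?_
    have h0 : T = ∅ := by
      rw [Finset.eq_empty_iff_forall_notMem]
      intro c hc
      obtain ⟨-, -, i, hi, -⟩ := hP c hc
      exact absurd hi (Finset.notMem_empty i)
    rw [h0, Finset.card_empty, Nat.cast_zero]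
    exact mul_nonneg hε.le (mul_nonneg (Nat.cast_nonneg X)
      (Real.rpow_nonneg (Real.log_natCast_nonneg X) _))
  | insert i R hi ih =>
    intro ε hε
    have h1 := hP i (Finset.mem_insert_self i R) (ε / 2) (half_pos hε)
    have h2 := ih (fun j hj => hP j (Finset.mem_insert_of_mem hj)) (ε / 2) (half_pos hε)
    filter_upwards [h1, h2] with X hX1 hX2
    intro T hT hPT
    have h3 := hX1 (T.filter fun c => P i c) (fun c hc c' hc' => hT c (Finset.mem_filter.1 hc).1 c'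
      (Finset.mem_filter.1 hc').1) (fun c hc => ⟨(hPT c (Finset.mem_filter.1 hc).1).1,
        (hPT c (Finset.mem_filter.1 hc).1).2.1, (Finset.mem_filter.1 hc).2⟩)
    have h4 := hX2 (T.filter fun c => ¬ P i c) (fun c hc c' hc' => hT c (Finset.mem_filter.1 hc).1 c'
      (Finset.mem_filter.1 hc').1) (fun c hc => by
        obtain ⟨hcT, hcQ⟩ := Finset.mem_filter.1 hc
        obtain ⟨hc0, hcX, j, hj, hj2⟩ := hPT c hcT
        refine ⟨hc0, hcX, j, ?_, hj2⟩
        rcases Finset.mem_insert.1 hj with rfl | hj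
        · exact absurd hj2 hcQ
        · exact hj)
    have h5 : (T.card : ℝ) = ((T.filter fun c => P i c).card : ℝ) +
        ((T.filter fun c => ¬ P i c).card : ℝ) := by
      rw [← Finset.card_filter_add_card_filter_not (fun c => P i c)]
      push_cast
      rfl
    rw [h5]
    linarith

end rare

section one

variable {k E : Type} [Field k] [NumberField k] [Field E] [IsAlgClosed E] [Algebra k E]
  [Algebra.IsAlgebraic k E] {P : Type}

private theorem lift_pow29 {M : IntermediateField k E} {σ : E ≃ₐ[k] E} {τ : M ≃ₐ[k] M}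
    (h : ∀ x : M, σ x = τ x) (j : ℕ) (x : M) : (σ ^ j) x = (τ ^ j) x := by
  induction j generalizing x with
  | zero => rfl
  | succ j ih => rw [pow_succ, AlgEquiv.mul_apply, h, ih, pow_succ, AlgEquiv.mul_apply]

private theorem lift_inv29 {M : IntermediateField k E} {σ : E ≃ₐ[k] E} {τ : M ≃ₐ[k] M}
    (h : ∀ x : M, σ x = τ x) (x : M) : σ⁻¹ x = τ⁻¹ x := by
  have h3 := h (τ⁻¹ x)
  have h4 : τ (τ⁻¹ x) = x := τ.apply_symm_apply x
  rw [h4] at h3
  rw [← h3]
  exact σ.symm_apply_apply _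

private theorem lift_zpow29 {M : IntermediateField k E} {σ : E ≃ₐ[k] E} {τ : M ≃ₐ[k] M}
    (h : ∀ x : M, σ x = τ x) (n : ℤ) (x : M) : (σ ^ n) x = (τ ^ n) x := by
  rcases Int.eq_nat_or_neg n with ⟨j, rfl | rfl⟩
  · rw [zpow_natCast, zpow_natCast]
    exact lift_pow29 h j x
  · rw [zpow_neg, zpow_natCast, ← inv_pow, zpow_neg, zpow_natCast, ← inv_pow]
    exact lift_pow29 (lift_inv29 h) j x

/-- one action -/
private theorem one29 (hW3 : StmtW3) (hCT : StmtCT) {ℓ : ℕ} (hℓ : ℓ.Prime) (hμ : HasMu k ℓ)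
    (ρ : (E ≃ₐ[k] E) →* Equiv.Perm P)
    (hc : ∃ L' : IntermediateField k E, FiniteDimensional k L' ∧
      ∀ g : E ≃ₐ[k] E, (∀ x ∈ L', g x = x) → ρ g = 1)
    (hσ : ∃ σ : E ≃ₐ[k] E, ∀ x : P, ρ σ x ≠ x) (Bad : Set (Pr k)) (hBad : Bad.Finite) :
    Rare ℓ (fun c : k => ∀ v ∉ Bad, IsRam ℓ v c →
        ∃ (O : ValuationSubring E) (F : E ≃ₐ[k] E) (p f : ℕ), DecPt v O F p f ∧
          ∃ x : P, ρ F x = x) := by
  classical
  obtain ⟨L', hL', hρ⟩ := hc
  obtain ⟨σ₀, hσ₀⟩ := hσ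
  have : CharZero E := charZero_of_injective_algebraMap (algebraMap k E).injective
  have hn : Normal k E := by
    have : IsAlgClosure k E := ⟨inferInstance, inferInstance⟩
    exact IsAlgClosure.normal k E
  let M : IntermediateField k E := normalClosure k L' E
  have hMfin : FiniteDimensional k M := by
    change FiniteDimensional k (normalClosure k L' E)
    infer_instance
  have hMn : Normal k M := by
    change Normal k (normalClosure k L' E)
    infer_instance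
  have hMg : IsGalois k M := ⟨⟩
  have hLM : L' ≤ M := le_normalClosure L'
  have hNF : NumberField M := NumberField.of_module_finite k M
  -- two lifts
  have key : ∀ (τ : M ≃ₐ[k] M) (g g' : E ≃ₐ[k] E), (∀ x : M, g x = τ x) → (∀ x : M, g' x = τ x) →
      ρ g = ρ g' := by
    intro τ g g' hg hg'
    have h1 : ρ (g'⁻¹ * g) = 1 := by
      refine hρ _ fun x hx => ?_
      have h2 : g x = τ ⟨x, hLM hx⟩ := hg ⟨x, hLM hx⟩
      rw [AlgEquiv.mul_apply, h2, ← hg' ⟨x, hLM hx⟩]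
      exact g'.symm_apply_apply _
    rw [map_mul, map_inv, inv_mul_eq_one] at h1
    exact h1.symm
  let C : Set (M ≃ₐ[k] M) := {τ | ∃ g : E ≃ₐ[k] E, (∀ x : M, g x = τ x) ∧ ∀ x : P, ρ g x ≠ x}
  obtain ⟨B, hB⟩ := Pool.Agent.HG.exists_B5 k
  obtain ⟨C₀, Bad₂, Q, hBad₂, hQ, hsum⟩ := hW3 k M C (by
    rintro τ ⟨g, hg, hgf⟩ τ' hττ
    have h1 : τ' ∈ Subgroup.zpowers τ := by
      rw [← hττ]
      exact Subgroup.mem_zpowers τ'
    have h2 : τ ∈ Subgroup.zpowers τ' := by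
      rw [hττ]
      exact Subgroup.mem_zpowers τ
    obtain ⟨n, rfl⟩ := Subgroup.mem_zpowers_iff.1 h1
    obtain ⟨m, hm⟩ := Subgroup.mem_zpowers_iff.1 h2
    refine ⟨g ^ n, lift_zpow29 hg n, fun x hx => ?_⟩
    have h3 : ∀ x : M, ((g ^ n) ^ m) x = τ x := by
      intro x
      rw [lift_zpow29 (lift_zpow29 hg n) m x, hm]
    have h4 := key τ _ _ h3 hg
    refine hgf x ?_
    rw [← h4, map_zpow]
    have h5 : ∀ (e : Equiv.Perm P), e x = x → ∀ m : ℤ, (e ^ m) x = x := by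
      intro e he m
      exact Equiv.Perm.zpow_apply_eq_self_of_apply_eq_self he m
    exact h5 _ hx m) (by
    rintro τ ⟨g, hg, hgf⟩ γ
    obtain ⟨g', hg'⟩ := exists_lift13 (E := E) M.val γ
    have hg1 : ∀ x : M, g' x = γ x := hg'
    have hg2 : ∀ x : M, g'⁻¹ x = γ⁻¹ x := lift_inv29 hg1
    refine ⟨g' * g * g'⁻¹, ?_, fun x hx => ?_⟩
    · intro x
      rw [AlgEquiv.mul_apply, AlgEquiv.mul_apply, hg2, hg, hg1, AlgEquiv.mul_apply,
        AlgEquiv.mul_apply]
    · rw [map_mul, map_mul, map_inv, Equiv.Perm.mul_apply, Equiv.Perm.mul_apply] at hx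
      refine hgf ((ρ g')⁻¹ x) ?_
      exact (Equiv.symm_apply_eq (ρ g')).2 hx.symm |>.symm) B hB
  have hC : 0 < Nat.card C := by
    obtain ⟨τ, hτ⟩ := exists_res13 (E := E) M.val σ₀
    have hne : Nonempty C := ⟨⟨τ, σ₀, hτ, hσ₀⟩⟩
    exact Nat.card_pos
  have hG0 : (0 : ℝ) < Nat.card (M ≃ₐ[k] M) := by
    have : 0 < Nat.card (M ≃ₐ[k] M) := Nat.card_pos
    exact_mod_cast this
  have hC0 : (0 : ℝ) < Nat.card C := by exact_mod_cast hC
  refine rare_mono29 (fun c g3 => ?_) (hCT k ℓ hℓ hμ B hB _ _ Q _ (hBad.union hBad₂)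
    (div_pos hC0 hG0) hsum)
  intro v hv hvB hodd
  rw [Set.mem_union, not_or] at hvB
  obtain ⟨O, F, p, f, hD, x, hx⟩ := g3 v hvB.1 hodd
  obtain ⟨P', hP, hPv⟩ := exists_below99 M.val hD
  obtain ⟨τ, hτ⟩ := exists_res13 M.val F
  rw [hQ v hvB.2 P' τ hPv (frob_below99 hD hP hτ)] at hv
  obtain ⟨g, hg, hgf⟩ := hv
  exact hgf x (by rw [key τ g F hg hτ]; exact hx)

end one

theorem lva : StmtLVF → StmtW3 → StmtCT → StmtLVA := by
  classical
  intro hLVF hW3 hCT k E _ _ _ _ _ _ ℓ hℓ hμ P _ A hcomm hA L hL Bad hBad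
  have hfin := hLVF k E ℓ hℓ hμ P A hcomm hA L hL Bad hBad
  -- the actions with an element without fixed point
  let R : Set ((E ≃ₐ[k] E) →* Equiv.Perm P) := {ρ | (∃ c : k, Rep ℓ A L Bad c ρ) ∧
    ∃ σ : E ≃ₐ[k] E, ∀ x : P, ρ σ x ≠ x}
  have hR : R.Finite := hfin.subset fun ρ h => h.1
  refine rare_mono29 (Q := fun c => ∃ ρ ∈ hR.toFinset, ∀ v ∉ Bad, IsRam ℓ v c →
        ∃ (O : ValuationSubring E) (F : E ≃ₐ[k] E) (p f : ℕ), DecPt v O F p f ∧
          ∃ x : P, ρ F x = x) ?_ (rare_union29 hR.toFinset _ fun ρ hρ => ?_)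
  · rintro c ⟨ρ, hρ, hσ⟩
    exact ⟨ρ, hR.mem_toFinset.2 ⟨⟨c, hρ⟩, hσ⟩, hρ.odd⟩
  · obtain ⟨⟨c, hc⟩, hσ⟩ := hR.mem_toFinset.1 hρ
    exact one29 hW3 hCT hℓ hμ ρ hc.cont hσ Bad hBad

end Pool.Agent.PD
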