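import Pool.Agent.Helper29.TW.LVL
import Pool.Agent.Helper29.PD.Geo
import Pool.Agent.Helper29.PD.LVA
import Pool.Agent.Helper29.PD.LVF
import Pool.Agent.Helper45.ML.INTd

/-!
# Project PD, block P9 (after `Pool.Agent.TW.lvl`)
-/

set_option autoImplicit false
set_option linter.unusedSectionVars false

namespace Pool.Agent.PD

open VC Filter Topology NumberField IsDedekindDomain IntermediateField Pool.Agent.SC
open Pool.Agent.L (Inert L0 MM SamePlace OverV StmtAR)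
open Pool.Agent.LN (Geo Act IsRam DecPt)
open Pool.Agent.M (OverPl Moves)
open Pool.Agent.ML (HasMu BPl)
open Pool.Agent.HG (Pr nm)
open Pool.Agent.L (exists_cont29)
open Pool.Agent.TW (Gb29 pi29 PP29 A29 finite29 exists_sep29 moves_pi29 exists_down29 inert_conj29
  StmtTRV Lvl)

noncomputable section

section rep

variable {k K0 E U : Type} [Field k] [NumberField k] [Field K0] [Field E] [Field U] [Algebra k K0]
  [Algebra k E] [Algebra E U] [Algebra K0 U] [Algebra k U] [IsScalarTower k E U]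
  [IsScalarTower k K0 U] {ℓ : ℕ} {h : K0} {r : U}

theorem repP29 [IsAlgClosed E] [Algebra.IsAlgebraic k E] (hℓ : ℓ.Prime)
    (hFR : Pool.Agent.LN.StmtFR) (hTRV : StmtTRV)
    (G : Geo k K0 E U ℓ h r) {b₀ : Place E (L0 E K0 (U := U))} {N N' : IntermediateField E U}
    (hN' : Lvl E K0 N') (hle : N' ≤ N)
    (hcomm : ∀ a b : U ≃ₐ[E] U, (∀ x ∈ L0 E K0 (U := U), a x = x) →
      (∀ x ∈ L0 E K0 (U := U), b x = x) → ∀ x ∈ N', a (b x) = b (a x))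
    {Z : Finset U} (hZ : ∀ S T : Gb29 b₀, (∀ z ∈ Z, (S : U ≃+* U) z = (T : U ≃+* U) z) →
      pi29 hN' S = pi29 hN' T)
    {C : Finset E} (hC : ∀ T : Gb29 b₀,
      (∀ e ∈ C, (T : U ≃+* U) (algebraMap E U e) = algebraMap E U e) →
      pi29 hN' T ∈ A29 (b₀ := b₀) hN') {Bad : Set (Pr k)}
    (hAR : ∀ v ∉ Bad, ∀ O : ValuationSubring E, OverV v O →
      (∀ ζ : E, ζ ^ ℓ = 1 → ζ ≠ 1 → O.valuation (ζ - 1) = 1) ∧
      ∀ τ : E ≃ₐ[k] E, Inert O τ.toRingEquiv → ∀ e ∈ C, τ e = e)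
    {c : k} (hc : c ≠ 0) {Φ : (E ≃ₐ[k] E) →* (U ≃+* U)} (hΦ : Act (K0 := K0) ℓ r c Φ)
    (hfix : ∀ σ, Moves (Φ σ) _ b₀ b₀)
    (hLM : ∀ v ∉ Bad, ∀ (O : ValuationSubring E) (F : E ≃ₐ[k] E) (p f : ℕ), DecPt v O F p f →
      ∀ τ : E ≃ₐ[k] E, Inert O τ.toRingEquiv → (∀ d : E, d ^ ℓ = algebraMap k E c → τ d = d) →
      ∀ z ∈ Z, Φ τ z = z)
    (hO : ∀ v ∉ Bad, IsRam ℓ v c → OptAt Φ N b₀ v) :
    Rep ℓ (A29 (b₀ := b₀) hN') (adjoin k (C : Set E)) Bad c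
      ((pi29 hN').comp (phiP29 hΦ hfix)) := by
  have hgal := galP29 G
  have hcE : CharZero E := charZero_of_injective_algebraMap (algebraMap k E).injective
  have hone : ∀ g : E ≃ₐ[k] E, (∀ z ∈ Z, Φ g z = z) → pi29 hN' (phiP29 hΦ hfix g) = 1 := by
    intro g hg
    rw [← map_one (pi29 (b₀ := b₀) hN')]
    exact hZ _ _ fun z hz => hg z hz
  have hmem : ∀ g : E ≃ₐ[k] E, (∀ e ∈ C, g e = e) →
      pi29 hN' (phiP29 hΦ hfix g) ∈ A29 (b₀ := b₀) hN' := by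
    intro g hg
    refine hC _ fun e he => ?_
    rw [phiP29_apply, hΦ.const, hg e he]
  refine ⟨?_, fun g hg => hmem g fun e he => hg e (subset_adjoin _ _ he), ?_, ?_⟩
  · obtain ⟨L', h1, h2⟩ := exists_cont29 hΦ.cont Z
    exact ⟨L', h1, fun g hg => hone g (h2 g hg)⟩
  · intro v hv O hOv τ hτ
    -- reduction to a ring `O'` with a Frobenius element
    have hred : ∀ (O' : ValuationSubring E), OverV v O' →
        (∀ τ' : E ≃ₐ[k] E, Inert O' τ'.toRingEquiv →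
          pi29 hN' (phiP29 hΦ hfix τ') = 1) →
        pi29 hN' (phiP29 hΦ hfix τ) = 1 := by
      intro O' hO' hall
      obtain ⟨g, hg⟩ := hTRV k E v O O' hOv hO'
      have h1 := hall _ (inert_conj29 hg hτ)
      rw [map_mul, map_mul, map_mul, map_mul, map_inv, map_inv] at h1
      have h2 := mul_inv_eq_one.1 h1
      exact mul_eq_left.1 h2
    by_cases hodd : IsRam ℓ v c
    · obtain ⟨O', F, p, f, hD, Q, hQ, hFQ, hτQ⟩ := hO v hv hodd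
      obtain ⟨Q', hQ'⟩ := exists_down29 (E := E) (K0 := K0) hN' hle hQ
      refine hred O' hD.above fun τ' hτ' => ?_
      have h1 : pi29 hN' (phiP29 hΦ hfix τ') Q' = Q' := hQ' _ (hτQ τ' hτ')
      exact A29_fixc hN' hcomm (hmem τ' ((hAR v hv O' hD.above).2 τ' hτ')) h1
    · obtain ⟨O', F, p, f, hD⟩ := hFR k E v
      refine hred O' hD.above fun τ' hτ' => ?_
      refine hone _ (hLM v hv O' F p f hD _ hτ' fun d hd => ?_)
      by_contra hne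
      exact hodd (Pool.Agent.ML.ram_of_moved hℓ.pos hD.above (hAR v hv O' hD.above).1 hτ' hc hd hne)
  · intro v hv hodd
    obtain ⟨O', F, p, f, hD, Q, hQ, hFQ, hτQ⟩ := hO v hv hodd
    obtain ⟨Q', hQ'⟩ := exists_down29 (E := E) (K0 := K0) hN' hle hQ
    exact ⟨O', F, p, f, hD, Q', hQ' _ hFQ⟩

/-- one place `b₀` -/
theorem one_place29 (hLM : Pool.Agent.ML.StmtLM) (hK3 : Pool.Agent.LN.StmtK3) (hAR : StmtAR)
    (hLVA : StmtLVA) (hTRV : StmtTRV) (hFR : Pool.Agent.LN.StmtFR) (hℓ : ℓ.Prime)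
    (hμ : HasMu k ℓ) (G : Geo k K0 E U ℓ h r)
    {b₀ : Place E (L0 E K0 (U := U))}
    (hfix : ∀ (c : k) (Φ : (E ≃ₐ[k] E) →* (U ≃+* U)), c ≠ 0 → Act (K0 := K0) ℓ r c Φ →
      ∀ σ : E ≃ₐ[k] E, Moves (Φ σ) _ b₀ b₀)
    {N' : IntermediateField E U} (hN' : Lvl E K0 N')
    (hcomm : ∀ a b : U ≃ₐ[E] U, (∀ x ∈ L0 E K0 (U := U), a x = x) →
      (∀ x ∈ L0 E K0 (U := U), b x = x) → ∀ x ∈ N', a (b x) = b (a x))
    (hex : ∀ a : U ≃ₐ[E] U, (∀ x ∈ L0 E K0 (U := U), a x = x) → ∀ x ∈ N', (a ^ ℓ) x = x)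
    {N : IntermediateField E U} (hle : N' ≤ N) {BadN : Set (Pr k)} (hBadN : BadN.Finite) (B : ℕ) :
    Rare ℓ (fun c : k => ∃ Φ : (E ≃ₐ[k] E) →* (U ≃+* U), Act (K0 := K0) ℓ r c Φ ∧
      (∀ v : Pr k, v ∉ BadN → B < nm v → IsRam ℓ v c → OptAt Φ N b₀ v) ∧
      ∃ σ : E ≃ₐ[k] E, ¬ ∃ Q : Place E N', OverPl b₀ Q ∧ Moves (Φ σ) N' Q Q) := by
  classical
  have hclE : IsAlgClosed E := G.clE
  have halgE : Algebra.IsAlgebraic k E := G.algE
  have hcE : CharZero E := charZero_of_injective_algebraMap (algebraMap k E).injective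
  have hfin : Finite (PP29 b₀ N') := finite29 G.ff hN'
  obtain ⟨Z, hZN, hZ⟩ := exists_sep29 (b₀ := b₀) hN'
  obtain ⟨C, hC⟩ := k3P29 hK3 hℓ.two_le G hN' hZ
  obtain ⟨_, -, -, -, -, BadM, hBadM, hLM1⟩ := hLM k K0 E U ℓ h r hℓ.two_le G Z
  set S : Finset E := ((Polynomial.nthRoots ℓ (1 : E)).toFinset.filter (· ≠ 1)).image
    (fun ζ => ζ - 1) with hS
  have hSmem : ∀ ζ : E, ζ ^ ℓ = 1 → ζ ≠ 1 → ζ - 1 ∈ S := by
    intro ζ h1 h2
    rw [hS]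
    refine Finset.mem_image_of_mem _ (Finset.mem_filter.2 ⟨?_, h2⟩)
    rw [Multiset.mem_toFinset, Polynomial.mem_nthRoots hℓ.pos]
    exact h1
  obtain ⟨BadA, hBadA, hAR1⟩ := hAR k E S C (by
    intro s hs
    rw [hS] at hs
    obtain ⟨ζ, hζ, rfl⟩ := Finset.mem_image.1 hs
    exact sub_ne_zero.2 (Finset.mem_filter.1 hζ).2)
  obtain ⟨BB, hBB⟩ := Pool.Agent.Helper22.M.exists_B22 k
  set Bad : Set (Pr k) := BadN ∪ BadM ∪ BadA ∪ (BB B : Set (Pr k)) with hBad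
  have hBadfin : Bad.Finite := ((hBadN.union hBadM).union hBadA).union (BB B).finite_toSet
  have hCfin : FiniteDimensional k (adjoin k (C : Set E)) := by
    have : Finite (C : Set E) := C.finite_toSet.to_subtype
    exact finiteDimensional_adjoin fun x _ => (Algebra.IsAlgebraic.isAlgebraic x).isIntegral
  have h2 := hLVA k E ℓ hℓ hμ (PP29 b₀ N') (A29 (b₀ := b₀) hN')
    (fun a ha b hb => A29_comm hN' hcomm ha hb) (fun a ha => A29_pow hN' hex ha)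
    (adjoin k (C : Set E)) hCfin Bad hBadfin
  intro ε hε
  filter_upwards [h2 ε hε] with X hX2
  intro T hT hP
  refine hX2 T hT fun c hcT => ?_
  obtain ⟨hc0, hcX, Φ, hΦ, hopt, σ, hσ⟩ := hP c hcT
  refine ⟨hc0, hcX, (pi29 hN').comp (phiP29 hΦ (hfix c Φ hc0 hΦ)), ?_, σ, fun x hx => ?_⟩
  · refine repP29 hℓ hFR hTRV G (N := N) hN' hle hcomm hZ hC ?_ hc0 hΦ _ ?_ ?_
    · intro v hv O hO
      obtain ⟨h5, h6⟩ := hAR1 v (fun h7 => hv (Or.inl (Or.inr h7))) O hO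
      exact ⟨fun ζ h8 h9 => h5 _ (hSmem ζ h8 h9), h6⟩
    · intro v hv O F p f hD
      exact (hLM1 v (fun h7 => hv (Or.inl (Or.inl (Or.inr h7)))) c hc0 Φ hΦ O F p f hD).1
    · intro v hv hodd
      refine hopt v (fun h7 => hv (Or.inl (Or.inl (Or.inl h7)))) ?_ hodd
      by_contra hle'
      exact hv (Or.inr ((hBB B v).2 (not_lt.1 hle')))
  · exact hσ ⟨x.1, x.2, (moves_pi29 hN' _ x x).2 hx⟩

end rep

open scoped Classical in
/-- **BLOCK P9.** -/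
theorem lvl (hAN : StmtAN) (hLM : Pool.Agent.ML.StmtLM) (hK3 : Pool.Agent.LN.StmtK3)
    (hAR : StmtAR) (hHF : Pool.Agent.ML.StmtHF) (hW3 : Pool.Agent.M.StmtW3) (hCT : StmtCT)
    (hTRV : StmtTRV) (hFR : Pool.Agent.LN.StmtFR) : StmtLVL := by
  have hLVA : StmtLVA := lva (lvf hHF) hW3 hCT
  intro k K0 E U _ _ _ _ _ _ _ _ _ _ _ _ ℓ h r hℓ hμ G R hR N' hN' hMN' hcomm hex
  obtain ⟨Zg, hZg⟩ := exists_generators N' hN'.ff
  obtain ⟨N, BadN, hN, -, hZgN, hBadN, hAN1⟩ := hAN k K0 E U ℓ h r hℓ hμ G R hR Zg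
  have hle : N' ≤ N := by
    intro x hx
    have h1 : x ∈ N'.toSubfield := hx
    rw [hZg] at h1
    have h2 : Subfield.closure (Set.range (algebraMap E U) ∪ (Zg : Set U)) ≤ N.toSubfield := by
      rw [Subfield.closure_le]
      rintro y (⟨e, rfl⟩ | hy)
      · exact N.algebraMap_mem e
      · exact hZgN y hy
    exact h2 h1
  intro ε hε
  obtain ⟨B, hB⟩ := hAN1 (ε / 2) (half_pos hε)
  have h2 := rare_union29 (ℓ := ℓ) R (fun b₀ c => ∃ Φ : (E ≃ₐ[k] E) →* (U ≃+* U),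
      Act (K0 := K0) ℓ r c Φ ∧
      (∀ v : Pr k, v ∉ BadN → B < nm v → IsRam ℓ v c → OptAt Φ N b₀ v) ∧
      ∃ σ : E ≃ₐ[k] E, ¬ ∃ Q : Place E N', OverPl b₀ Q ∧ Moves (Φ σ) N' Q Q)
    (fun b₀ hb₀ => one_place29 hLM hK3 hAR hLVA hTRV hFR hℓ hμ G (hR.fix b₀ hb₀) hN' hcomm hex
      hle hBadN B)
    (ε / 2) (half_pos hε)
  filter_upwards [hB, h2] with X hX1 hX2
  intro T hT hP
  set Q : k → Prop := fun c => ∃ Φ : (E ≃ₐ[k] E) →* (U ≃+* U), Act (K0 := K0) ℓ r c Φ ∧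
    ∀ b₀ ∈ R, ∃ v : Pr k, v ∉ BadN ∧ B < nm v ∧ IsRam ℓ v c ∧ ¬ OptAt Φ N b₀ v with hQ
  have h3 := hX1 (T.filter Q) (fun c hc c' hc' => hT c (Finset.mem_filter.1 hc).1 c'
    (Finset.mem_filter.1 hc').1) (fun c hc => ⟨(hP c (Finset.mem_filter.1 hc).1).1,
      (hP c (Finset.mem_filter.1 hc).1).2.1, (Finset.mem_filter.1 hc).2⟩)
  have h4 := hX2 (T.filter (¬ Q ·)) (fun c hc c' hc' => hT c (Finset.mem_filter.1 hc).1 c'
    (Finset.mem_filter.1 hc').1) (fun c hc => by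
      obtain ⟨hcT, hcQ⟩ := Finset.mem_filter.1 hc
      obtain ⟨hc0, hcX, Φ, hΦ, hσ⟩ := hP c hcT
      refine ⟨hc0, hcX, ?_⟩
      by_contra hno
      apply hcQ
      refine ⟨Φ, hΦ, fun b₀ hb₀ => ?_⟩
      by_contra hno2
      apply hno
      refine ⟨b₀, hb₀, Φ, hΦ, fun v hv hB2 hodd => ?_, hσ b₀ hb₀⟩
      by_contra hno3
      exact hno2 ⟨v, hv, hB2, hodd, hno3⟩)
  have h5 : (T.card : ℝ) = ((T.filter Q).card : ℝ) + ((T.filter (¬ Q ·)).card : ℝ) := by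
    rw [← Finset.card_filter_add_card_filter_not Q]
    push_cast
    rfl
  rw [h5]
  linarith

end

end Pool.Agent.PD
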